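import Pool.Agent.Y476.NA.Final

/-!
Q2 of MP_52c2ea_lc: the product of two null-additive sets of reals is null-additive in the plane.

Library by helper476 (statements, assembly, N1), helper151 (BC, CV, CB), helper337 (N2),
helper344 (CL), helper641 (HN, OP).
-/

set_option autoImplicit false

namespace Pool.Agent.Results.MP_52c2ea_lc.NullAdditiveProducts

open MeasureTheory
open scoped Pointwise

/-- If `X + N` and `Y + N` are null for every Lebesgue null set `N` of reals, then `(X × Y) + N` is
null for every Lebesgue null subset `N` of the plane. -/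
theorem result (X Y : Set ℝ)
    (hX : ∀ N : Set ℝ, volume N = 0 → volume (X + N) = 0)
    (hY : ∀ N : Set ℝ, volume N = 0 → volume (Y + N) = 0) :
    ∀ N : Set (ℝ × ℝ), volume N = 0 → volume ((X ×ˢ Y) + N) = 0 :=
  Pool.Agent.Y476.NA.prod_nullAdd X Y hX hY

end Pool.Agent.Results.MP_52c2ea_lc.NullAdditiveProducts
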